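import Pool.Agent.Helper80_PND.Stmts
import Pool.Agent.Helper80_RS.Glue

/-!
# MP_ff6f12_co, squad PND: module CLR (helper83)
-/

set_option autoImplicit false

open SimpleGraph

namespace Pool.Agent.PND80.H83

open Pool.Agent.RS80 Pool.Agent.RS81 Pool.Agent.SEP60 Pool.Agent.TWC80

/-- the cell of a vertex (`none` for the hubs and the points) -/
def cellOf {V : Type} {a : ℕ} {Y E : Type} : Wh V a Y E → Option E
  | .inl _ => none
  | .inr (.inl _) => none
  | .inr (.inr (e, _)) => some e

theorem hub_adj {V : Type} {a : ℕ} {Y E : Type} {u v : Wh V a Y E}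
    (h : (hubG V a Y E).Adj u v) :
    (∃ k y, u = .inl k ∧ v = .inr (.inl y)) ∨ (∃ k y, v = .inl k ∧ u = .inr (.inl y)) := by
  rw [hubG, SimpleGraph.fromRel_adj] at h
  rcases h.2 with ⟨k, y, h1, h2⟩ | ⟨k, y, h1, h2⟩
  · exact Or.inl ⟨k, y, h1, h2⟩
  · exact Or.inr ⟨k, y, h1, h2⟩

theorem cel_adj {V : Type} {B : SimpleGraph V} {a : ℕ} {Y E : Type} {u v : Wh V a Y E}
    (h : (celG B a Y E).Adj u v) :
    ∃ e i j, u = .inr (.inr (e, .inr i)) ∧ v = .inr (.inr (e, .inr j)) := by
  rw [celG, SimpleGraph.fromRel_adj] at h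
  rcases h.2 with ⟨e, i, j, _, h1, h2⟩ | ⟨e, i, j, _, h1, h2⟩
  · exact ⟨e, i, j, h1, h2⟩
  · exact ⟨e, j, i, h2, h1⟩

theorem cellOf_eq {V : Type} {B : SimpleGraph V} {a : ℕ} {Y E : Type} {u v : Wh V a Y E}
    (h : (hubG V a Y E ⊔ celG B a Y E).Adj u v) : cellOf u = cellOf v := by
  rcases h with h | h
  · rcases hub_adj h with ⟨k, y, rfl, rfl⟩ | ⟨k, y, rfl, rfl⟩
    · rfl
    · rfl
  · obtain ⟨e, i, j, rfl, rfl⟩ := cel_adj h
    rfl

/-- `B` does not embed in the graph of the hubs -/
theorem hub_free {V : Type} [Finite V] (B : SimpleGraph V) (a : ℕ)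
    (hK : ∀ N, B.Free (completeBipartiteGraph (Fin a) (Fin N))) (Y E : Type) [Finite Y]
    (hdeg : ∀ v, ∃ u, B.Adj v u) (f : V → Wh V a Y E) (hf : Function.Injective f)
    (hadj : ∀ u v, B.Adj u v → (hubG V a Y E).Adj (f u) (f v)) : False := by
  classical
  obtain ⟨N, ⟨φ⟩⟩ := Finite.exists_equiv_fin (Y × Bool)
  have hval : ∀ v, ∃ z : Fin a ⊕ (Y × Bool), f v = Sum.elim Sum.inl (fun y => Sum.inr (Sum.inl y)) z := by
    intro v
    obtain ⟨u, hu⟩ := hdeg v
    rcases hub_adj (hadj v u hu) with ⟨k, y, h1, _⟩ | ⟨k, y, _, h2⟩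
    · exact ⟨.inl k, h1⟩
    · exact ⟨.inr y, h2⟩
  choose z hz using hval
  have hzinj : Function.Injective z := by
    intro u v h
    apply hf
    rw [hz u, hz v, h]
  have hm : ∀ u v, B.Adj u v → (completeBipartiteGraph (Fin a) (Fin N)).Adj
      (Sum.map id φ (z u)) (Sum.map id φ (z v)) := by
    intro u v huv
    have h1 := hz u
    have h2 := hz v
    rcases hub_adj (hadj u v huv) with ⟨k, y, e1, e2⟩ | ⟨k, y, e1, e2⟩
    · rw [e1] at h1
      rw [e2] at h2
      rcases hzu : z u with k' | y'
      · rcases hzv : z v with k'' | y''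
        · rw [hzv] at h2
          simp at h2
        · simp [completeBipartiteGraph]
      · rw [hzu] at h1
        simp at h1
    · rw [e2] at h1
      rw [e1] at h2
      rcases hzu : z u with k' | y'
      · rw [hzu] at h1
        simp at h1
      · rcases hzv : z v with k'' | y''
        · simp [completeBipartiteGraph]
        · rw [hzv] at h2
          simp at h2
  refine hK N ⟨⟨⟨fun v => Sum.map id φ (z v), fun {u v} h => hm u v h⟩, ?_⟩⟩
  intro u v h
  apply hzinj
  exact (Sum.map_injective.mpr ⟨Function.injective_id, φ.injective⟩) h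

theorem clr (sys : SysStmt) : ClrStmt := by
  intro V _ B hB a hK I Y E _ _ _ inc P hinc hleaf hfree W _ H hH hBH hcard
  classical
  have hVpos : 3 ≤ Nat.card V := hB.1
  have hBdeg : ∀ v, ∃ u, B.Adj v u := by
    intro v
    obtain ⟨u, hu⟩ := hB.exists_adj v
    exact ⟨u, hu⟩
  obtain ⟨g⟩ := hBH
  refine ⟨?_, ?_⟩
  · rintro ⟨f⟩
    have hfinj : Function.Injective f := f.injective
    have hcon : ∀ w w' : W, cellOf (f w) = cellOf (f w') := by
      intro w w'
      obtain ⟨p⟩ := hH.preconnected w w'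
      induction p with
      | nil => rfl
      | cons h _ ih => exact (cellOf_eq (f.toHom.map_adj h)).trans ih
    obtain ⟨w₀⟩ := hH.nonempty
    rcases hc : cellOf (f w₀) with _ | e
    · -- the component of the hubs
      refine hub_free B a hK Y E hBdeg (fun v => f (g v)) (fun u v h => g.injective (hfinj h)) ?_
      intro u v huv
      have h1 : (hubG V a Y E ⊔ celG B a Y E).Adj (f (g u)) (f (g v)) :=
        f.toHom.map_adj (g.toHom.map_adj huv)
      rcases h1 with h1 | h1
      · exact h1
      · exfalso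
        obtain ⟨e, i, j, e1, _⟩ := cel_adj h1
        have h2 := hcon w₀ (g u)
        rw [hc, e1] at h2
        simp [cellOf] at h2
    · -- one cell
      have hW : Nontrivial W := by
        rw [← Finite.one_lt_card_iff_nontrivial]
        omega
      have hval : ∀ w, ∃ i : V, f w = .inr (.inr (e, .inr i)) := by
        intro w
        obtain ⟨w', hw'⟩ := hH.preconnected.exists_adj_of_nontrivial w
        have h2 := hcon w₀ w
        rw [hc] at h2
        have h0 : (hubG V a Y E ⊔ celG B a Y E).Adj (f w) (f w') := f.toHom.map_adj hw'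
        rcases h0 with h1 | h1
        · exfalso
          rcases hub_adj h1 with ⟨k, y, e1, _⟩ | ⟨k, y, _, e1⟩
          · rw [e1] at h2
            simp [cellOf] at h2
          · rw [e1] at h2
            simp [cellOf] at h2
        · obtain ⟨e', i, j, e1, _⟩ := cel_adj h1
          rw [e1] at h2
          simp only [cellOf, Option.some.injEq] at h2
          exact ⟨i, by rw [e1, h2]⟩
      choose i hi using hval
      have hinj : Function.Injective i := by
        intro w w' h
        apply hfinj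
        rw [hi w, hi w', h]
      have := Nat.card_le_card_of_injective i hinj
      omega
  · rintro ⟨f⟩
    have hfinj : Function.Injective f := f.injective
    -- `B` in the system
    refine sys V B hB I Y E (Qx V a) (fun _ => true) inc P hinc hleaf hfree ?_
    have hadj : ∀ u v, B.Adj u v → ∃ p q, (Sys (fun _ => true) inc P).Adj p q ∧
        f (g u) = .inr p ∧ f (g v) = .inr q := by
      intro u v huv
      have h1 : (sysG (V := V) inc P).Adj (f (g u)) (f (g v)) :=
        f.toHom.map_adj (g.toHom.map_adj huv)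
      rcases ((SimpleGraph.fromRel_adj _ _ _).mp h1).2 with ⟨p, q, h2, h3, h4⟩ | ⟨p, q, h2, h3, h4⟩
      · exact ⟨p, q, h2, h3, h4⟩
      · exact ⟨q, p, h2.symm, h4, h3⟩
    have hval : ∀ v, ∃ p, f (g v) = .inr p := by
      intro v
      obtain ⟨u, hu⟩ := hBdeg v
      obtain ⟨p, q, _, h1, _⟩ := hadj v u hu
      exact ⟨p, h1⟩
    choose p hp using hval
    refine ⟨⟨⟨p, ?_⟩, ?_⟩⟩
    · intro u v huv
      obtain ⟨p', q', h1, h2, h3⟩ := hadj u v huv
      rw [hp u] at h2
      rw [hp v] at h3
      rw [Sum.inr.inj h2, Sum.inr.inj h3]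
      exact h1
    · intro u v h
      have h' : p u = p v := h
      have h2 : f (g u) = f (g v) := by rw [hp u, hp v, h']
      exact g.injective (hfinj h2)

end Pool.Agent.PND80.H83
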